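import Pool.Agent.N236.RT.Par

/-!
# Project RT (helper236), PAR: the choice of the parameters
-/

set_option autoImplicit false

namespace Pool.Agent.N106.RT

open Pool.Agent.N236.RT

/-- the bound for `Lam` -/
theorem lam_le (κ : ℝ) (A B T : ℕ) (h l n : ℝ) (hκ : 0 < κ) (hn : 0 < n) (hl : l = Real.log n)
    (h1 : ((A : ℝ) + B + 1) ≤ n) (h2 : 2 * ((A : ℝ) + 1) * (B + 1) ≤ n ^ 2) (hh : h ≤ 1) :
    Lam κ A B T h ≤ 2 * κ * (4 * l + T * l + 1) + 1 := by
  unfold Lam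
  have e1 : Real.log (2 * ((A : ℝ) + 1) * (B + 1)) ≤ 2 * l := by
    have := Real.log_le_log (by positivity) h2
    rw [Real.log_pow] at this
    rw [hl]
    push_cast at this
    linarith
  have e2 : Real.log ((A : ℝ) + B + 1) ≤ l := by
    rw [hl]
    exact Real.log_le_log (by positivity) h1
  have e3 : (T : ℝ) * Real.log ((A : ℝ) + B + 1) ≤ T * l := mul_le_mul_of_nonneg_left e2 (by positivity)
  have e4 : 2 * Real.log (2 * ((A : ℝ) + 1) * (B + 1)) + T * Real.log ((A : ℝ) + B + 1) + h ≤ 4 * l + T * l + 1 := by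
    linarith
  have := mul_le_mul_of_nonneg_left e4 (by positivity : (0 : ℝ) ≤ 2 * κ)
  linarith

/-- the first inequality of the parameters -/
theorem ineq1 (η κ T t l : ℝ) (hη0 : 0 < η) (hη1 : η ≤ 1 / 16) (hκ : κ = η ^ 2 / 100) (hT : 20 ≤ η ^ 2 * T)
    (ht1 : t ≤ η * T / 8) (ht0 : 0 ≤ t) (hl : 1 ≤ l) :
    2 * κ * (4 * l + T * l + 1) + 1 + 2 * l + t * l + 1 < (T - t) * (η * l) := by
  have hy : 320 ≤ η * T := by
    have h1 : η ^ 2 * T = η * (η * T) := by ring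
    rw [h1] at hT
    have h2 : 0 ≤ η * T := by
      by_contra hcon
      have := mul_neg_of_pos_of_neg hη0 (not_le.1 hcon)
      linarith
    nlinarith
  have hz : η ^ 2 * T ≤ η * T / 16 := by
    have h1 : η ^ 2 * T = η * (η * T) := by ring
    rw [h1]
    nlinarith
  have hη2 : η ^ 2 ≤ 1 / 256 := by nlinarith
  have hk1 : 8 * κ * l ≤ l := by
    rw [hκ]
    nlinarith [mul_le_mul_of_nonneg_right hη2 (by linarith : (0 : ℝ) ≤ l)]
  have hk2 : 2 * κ ≤ 1 := by
    rw [hκ]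
    nlinarith
  have hk3 : 2 * κ * T * l = η ^ 2 * T * l / 50 := by rw [hκ]; ring
  have h3 : t * l ≤ η * T / 8 * l := mul_le_mul_of_nonneg_right ht1 (by linarith)
  have h4 : t * η * l ≤ η * T / 8 * η * l := by
    apply mul_le_mul_of_nonneg_right _ (by linarith)
    exact mul_le_mul_of_nonneg_right ht1 hη0.le
  have h5 : η * T / 8 * η * l = η ^ 2 * T * l / 8 := by ring
  have h6 : η ^ 2 * T * l ≤ η * T / 16 * l := mul_le_mul_of_nonneg_right hz (by linarith)
  have h7 : 320 * l ≤ η * T * l := mul_le_mul_of_nonneg_right hy (by linarith)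
  have e : (T - t) * (η * l) = η * T * l - t * η * l := by ring
  rw [e]
  have e2 : 2 * κ * (4 * l + T * l + 1) = 8 * κ * l + 2 * κ * T * l + 2 * κ := by ring
  rw [e2, hk3]
  nlinarith

/-- the second inequality of the parameters -/
theorem ineq2 (η κ T t l : ℝ) (hη0 : 0 < η) (hη1 : η ≤ 1 / 16) (hκ : κ = η ^ 2 / 100) (hT : 20 ≤ η ^ 2 * T)
    (ht2 : η * T / 8 < t + 1) (hl : 1 ≤ l) :
    2 * κ * (4 * l + T * l + 1) + 1 + 2 * l + l + 1 < (t - 1) * (3 * η * l) := by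
  have hη2 : η ^ 2 ≤ 1 / 256 := by nlinarith
  have hk1 : 8 * κ * l ≤ l / 10 := by
    rw [hκ]
    nlinarith [mul_le_mul_of_nonneg_right hη2 (by linarith : (0 : ℝ) ≤ l)]
  have hk2 : 2 * κ ≤ 1 / 10 := by
    rw [hκ]
    nlinarith
  have hk3 : 2 * κ * T * l = η ^ 2 * T * l / 50 := by rw [hκ]; ring
  have h1 : (η * T / 8 - 2) * (3 * η * l) ≤ (t - 1) * (3 * η * l) := by
    apply mul_le_mul_of_nonneg_right _ (by positivity)
    linarith
  have e1 : (η * T / 8 - 2) * (3 * η * l) = 3 / 8 * (η ^ 2 * T * l) - 6 * η * l := by ring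
  have h2 : 20 * l ≤ η ^ 2 * T * l := mul_le_mul_of_nonneg_right hT (by linarith)
  have h3 : 6 * η * l ≤ 6 / 16 * l := by nlinarith
  have e2 : 2 * κ * (4 * l + T * l + 1) = 8 * κ * l + 2 * κ * T * l + 2 * κ := by ring
  rw [e2, hk3]
  rw [e1] at h1
  linarith

/-- the third inequality of the parameters -/
theorem ineq3 (η κ T l : ℝ) (hη0 : 0 < η) (hη1 : η ≤ 1 / 16) (hκ : κ = η ^ 2 / 100) (hT : 20 ≤ η ^ 2 * T)
    (hl : 1 ≤ l) :
    2 * κ * (4 * l + T * l + 1) + 1 + 2 * l + l + 1 < (T - 1) * (η * l) := by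
  have h := ineq1 η κ T 1 l hη0 hη1 hκ hT ?_ (by norm_num) hl
  · linarith
  · have h1 : η ^ 2 * T = η * (η * T) := by ring
    rw [h1] at hT
    have h2 : 0 ≤ η * T := by
      by_contra hcon
      have := mul_neg_of_pos_of_neg hη0 (not_le.1 hcon)
      linarith
    nlinarith

/-- products of the parameters -/
theorem prod_le (η T S V X L p i k : ℝ) (hη0 : 0 < η) (hT : 1 ≤ T) (hS : 0 < S) (hV : 1 ≤ V)
    (hX0 : 0 ≤ X) (hX : X * V ^ 16 ≤ S) (hL0 : 0 ≤ L) (hL : L ≤ 20 * T / η * S) (hp0 : 0 ≤ p) (hp : p ≤ 32 * V ^ 6)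
    (hi0 : 0 ≤ i) (hi : i ≤ 8 * V ^ 2) (hk : k = 10240 * T / η) (hkV : k ≤ V) :
    p * i * L * (2 * X) / S ^ 2 ≤ 1 := by
  have hV0 : 0 < V := by linarith
  have hk0 : 0 ≤ k := by rw [hk]; positivity
  have hX' : X ≤ S / V ^ 16 := by
    rw [le_div_iff₀ (by positivity)]
    exact hX
  have h1 : p * i ≤ 32 * V ^ 6 * (8 * V ^ 2) := mul_le_mul hp hi hi0 (by positivity)
  have h2 : p * i * L ≤ 32 * V ^ 6 * (8 * V ^ 2) * (20 * T / η * S) := mul_le_mul h1 hL hL0 (by positivity)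
  have h3 : p * i * L * (2 * X) ≤ 32 * V ^ 6 * (8 * V ^ 2) * (20 * T / η * S) * (2 * (S / V ^ 16)) :=
    mul_le_mul h2 (by linarith) (by positivity) (by positivity)
  rw [div_le_one (by positivity)]
  refine h3.trans ?_
  have e : 32 * V ^ 6 * (8 * V ^ 2) * (20 * T / η * S) * (2 * (S / V ^ 16)) = (10240 * T / η) * S ^ 2 / V ^ 8 := by
    field_simp
    ring
  rw [e, ← hk, div_le_iff₀ (by positivity), mul_comm]
  apply mul_le_mul_of_nonneg_left _ (by positivity)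
  calc k ≤ V := hkV
    _ = V ^ 1 := (pow_one V).symm
    _ ≤ V ^ 8 := pow_le_pow_right₀ hV (by norm_num)

theorem core (η c : ℝ) (n₀ T t N : ℕ) (S V X : ℝ) (hη0 : 0 < η) (hη1 : η ≤ 1 / 16) (hc : 0 < c)
    (hT : 20 ≤ η ^ 2 * T) (ht1 : (t : ℝ) ≤ η * T / 8) (ht2 : η * T / 8 < t + 1) (ht : 2 ≤ t) (hN : (N : ℝ) = S ^ 2)
    (hSV : V ≤ S) (hlog1 : 1 ≤ Real.log N) (hlog : Real.log N ≤ V / 5)
    (hVK : 10 ^ 7 * (T ^ 3 / η ^ 4) + 2000 * (T / η) / c + n₀ + 10 ≤ V)
    (hlogV : 2 * Real.log V = η * Real.log N) (hX0 : 0 ≤ X) (hX : X * V ^ 16 ≤ S) :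
    ∃ (Q T t L : ℕ) (κ : ℝ), 0 < κ ∧ κ ≤ 1 / 2 ∧ 2 ≤ t ∧ t ≤ T ∧ 1 ≤ L ∧ n₀ ≤ Q ∧ 1 ≤ Q ∧
    (N : ℝ) * T ^ 2 ≤ κ * ((L : ℝ) + 1) ^ 2 ∧
    (∀ i : ℕ, Q < i → i ≤ 4 * Q →
      Lam κ L L T (L * (2 * X) / N) + Real.log (((L : ℝ) + 1) ^ 2) + t * Real.log (2 * L + 1)
        + i * L * (2 * X) / N < ((T : ℝ) - t) * Real.log i) ∧
    (∀ i : ℕ, Q < i → i ≤ 4 * Q → ∀ p : ℕ, Q ^ 3 < p → p ≤ 4 * Q ^ 3 →
      Lam κ L L T (L * (2 * X) / N) + Real.log (((L : ℝ) + 1) ^ 2) + Real.log (2 * L + 1)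
        + p * i * L * (2 * X) / N < ((t : ℝ) - 1) * Real.log p) ∧
    (∀ j : ℕ, Q ^ 3 ≤ (j + Nat.log 2 N) ^ 2 → 1 ≤ j ∧ ∀ i : ℕ, i ≤ 4 * Q → 2 * i * L ^ 2 < N * j) ∧
    (∀ m : ℕ, Q ≤ m ^ 2 → 4 * L ^ 3 < 2 ^ m) ∧
    (∀ p : ℕ, p ≤ 4 * Q ^ 3 → 2 * L * p * X / N < c / Real.log (2 * (L + L)) ^ 3) ∧
    ∀ a b : ℕ, 1 ≤ a → 1 ≤ b → (Q + 1) * a ≤ L → (Q + 1) * b ≤ L →
      ∃ A B : ℕ, (T : ℝ) * a * (B + 1) + T * b * (A + 1) ≤ κ * (((A : ℝ) + 1) * (B + 1)) ∧
        (∀ i : ℕ, Q < i → i ≤ 4 * Q → ∀ p : ℕ, Q ^ 3 < p → p ≤ 4 * Q ^ 3 →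
          Lam κ A B T ((A + B) * (p * X) / N) + Real.log (((A : ℝ) + 1) * (B + 1))
            + Real.log (A + B + 1) + i * ((A + B) * (p * X)) / N < ((T : ℝ) - 1) * Real.log i) ∧
        (∀ i : ℕ, i ≤ 4 * Q → i * (a * B + b * A) < N) ∧
        ∀ i : ℕ, Q < i → ¬ i * a ≤ A := by
  have hη1' : η ≤ 1 := by linarith
  -- `T` is large
  have hTη : 320 ≤ η * T := by
    have h1 : η ^ 2 * T = η * (η * T) := by ring
    rw [h1] at hT
    have h2 : 0 ≤ η * (T : ℝ) := by positivity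
    nlinarith
  have hT1 : (1 : ℝ) ≤ T := by
    have : η * (T : ℝ) ≤ 1 * T := mul_le_mul_of_nonneg_right hη1' (by positivity)
    linarith
  have hT0 : (0 : ℝ) < T := by linarith
  -- the constants
  set W := (T : ℝ) ^ 3 / η ^ 4 with hW
  have hW0 : 0 < W := by positivity
  have hWpow : ∀ (u v : ℕ), u ≤ 3 → v ≤ 4 → (T : ℝ) ^ u / η ^ v ≤ W := by
    intro u v hu hv
    rw [hW]
    apply div_le_div₀ (by positivity) (pow_le_pow_right₀ hT1 hu) (by positivity)
    exact pow_le_pow_of_le_one hη0.le hη1' hv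
  have hW10 : (T : ℝ) / η ≤ W := by
    have := hWpow 1 1 (by norm_num) (by norm_num)
    simpa using this
  have hW12 : (T : ℝ) / η ^ 2 ≤ W := by
    have := hWpow 1 2 (by norm_num) (by norm_num)
    simpa using this
  have hW22 : (T : ℝ) ^ 2 / η ^ 2 ≤ W := hWpow 2 2 (by norm_num) (by norm_num)
  have hW23 : (T : ℝ) ^ 2 / η ^ 3 ≤ W := hWpow 2 3 (by norm_num) (by norm_num)
  have hW1 : 1 ≤ W := by
    have := hWpow 0 0 (by norm_num) (by norm_num)
    simpa using this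
  have hc1 : 0 ≤ 2000 * ((T : ℝ) / η) / c := by positivity
  have hn0 : (0 : ℝ) ≤ n₀ := by positivity
  have hVW : 10 ^ 7 * W ≤ V := by linarith
  have hV7 : 10 ^ 7 ≤ V := by linarith
  have hV1 : 1 ≤ V := by linarith
  have hV0 : 0 < V := by linarith
  have hS0 : 0 < S := by linarith
  have hS1 : 1 ≤ S := by linarith
  have hn : (0 : ℝ) < N := by rw [hN]; positivity
  set l := Real.log N with hl
  -- `Q`
  set Q := ⌈V ^ 2⌉₊ with hQ
  have hQ1 : V ^ 2 ≤ (Q : ℝ) := Nat.le_ceil _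
  have hQ2 : (Q : ℝ) ≤ 2 * V ^ 2 := by
    have := Nat.ceil_lt_add_one (by positivity : (0 : ℝ) ≤ V ^ 2)
    have h1 : 1 ≤ V ^ 2 := one_le_pow₀ hV1
    linarith
  have hVV2 : V ≤ V ^ 2 := by clear * - hV1; nlinarith
  have hQpos : (1 : ℝ) ≤ Q := by linarith
  have hQ31 : V ^ 6 ≤ (Q : ℝ) ^ 3 := by
    calc V ^ 6 = (V ^ 2) ^ 3 := by ring
      _ ≤ (Q : ℝ) ^ 3 := pow_le_pow_left₀ (by positivity) hQ1 3
  have hQ32 : (Q : ℝ) ^ 3 ≤ 8 * V ^ 6 := by
    calc (Q : ℝ) ^ 3 ≤ (2 * V ^ 2) ^ 3 := pow_le_pow_left₀ (by positivity) hQ2 3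
      _ = 8 * V ^ 6 := by ring
  -- `L`
  set L := ⌈10 * T / η * S⌉₊ with hLdef
  have hTS : 1 ≤ 10 * (T : ℝ) / η * S := by
    have h1 : 1 ≤ 10 * (T : ℝ) / η := by
      rw [le_div_iff₀ hη0]
      linarith
    clear * - h1 hS1; nlinarith
  have hL1 : 10 * T / η * S ≤ (L : ℝ) := Nat.le_ceil _
  have hL2 : (L : ℝ) ≤ 20 * T / η * S := by
    have := Nat.ceil_lt_add_one (by positivity : (0 : ℝ) ≤ 10 * T / η * S)
    have e : 20 * (T : ℝ) / η * S = 2 * (10 * T / η * S) := by ring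
    rw [e]
    linarith
  have hLpos : (1 : ℝ) ≤ L := by linarith
  have hL20 : (L : ℝ) ≤ 20 * W * S := by
    refine hL2.trans ?_
    apply mul_le_mul_of_nonneg_right _ hS0.le
    have e : 20 * (T : ℝ) / η = 20 * (T / η) := by ring
    rw [e]
    linarith
  have h2L1 : 2 * (L : ℝ) + 1 ≤ N := by
    rw [hN]
    have h1 : 41 * W * S ≤ S * S := by
      apply mul_le_mul_of_nonneg_right _ hS0.le
      linarith
    have h2 : 1 ≤ W * S := by clear * - hW1 hS1; nlinarith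
    clear * - h1 h2 hL20; nlinarith
  have hN3 : (3 : ℝ) ≤ N := by linarith
  have h2LL : 2 * ((L : ℝ) + 1) * (L + 1) ≤ (N : ℝ) ^ 2 := by clear * - h2L1 hLpos hN3; nlinarith
  -- the numbers `i`, `p`
  have hi2 : ∀ i : ℕ, i ≤ 4 * Q → (i : ℝ) ≤ 8 * V ^ 2 := by
    intro i hi
    have : (i : ℝ) ≤ 4 * Q := by exact_mod_cast hi
    linarith
  have hp2 : ∀ p : ℕ, p ≤ 4 * Q ^ 3 → (p : ℝ) ≤ 32 * V ^ 6 := by
    intro p hp
    have : (p : ℝ) ≤ 4 * (Q : ℝ) ^ 3 := by exact_mod_cast hp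
    linarith
  have hilog : ∀ i : ℕ, Q < i → η * l ≤ Real.log i := by
    intro i hi
    have h1 : (Q : ℝ) ≤ i := by exact_mod_cast hi.le
    have h2 := Real.log_le_log (by positivity) (hQ1.trans h1)
    rw [Real.log_pow] at h2
    push_cast at h2
    linarith
  have hplog : ∀ p : ℕ, Q ^ 3 < p → 3 * η * l ≤ Real.log p := by
    intro p hp
    have h1 : (Q : ℝ) ^ 3 ≤ p := by exact_mod_cast hp.le
    have h2 := Real.log_le_log (by positivity) (hQ31.trans h1)
    rw [Real.log_pow] at h2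
    push_cast at h2
    linarith
  have hkV : 10240 * (T : ℝ) / η ≤ V := by
    have e : 10240 * (T : ℝ) / η = 10240 * (T / η) := by ring
    rw [e]
    linarith
  have hprod : ∀ p i L' : ℝ, 0 ≤ p → p ≤ 32 * V ^ 6 → 0 ≤ i → i ≤ 8 * V ^ 2 → 0 ≤ L' → L' ≤ 20 * T / η * S →
      p * i * L' * (2 * X) / N ≤ 1 := by
    intro p i L' hp0 hp hi0 hi hL0' hL'
    rw [hN]
    exact prod_le η T S V X L' p i _ hη0 hT1 hS0 hV1 hX0 hX hL0' hL' hp0 hp hi0 hi rfl hkV
  have h32 : (1 : ℝ) ≤ 32 * V ^ 6 := by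
    have : 1 ≤ V ^ 6 := one_le_pow₀ hV1
    linarith
  have h8 : (1 : ℝ) ≤ 8 * V ^ 2 := by
    have : 1 ≤ V ^ 2 := one_le_pow₀ hV1
    linarith
  have hκ0 : 0 < η ^ 2 / 100 := by positivity
  have hlamL : Lam (η ^ 2 / 100) L L T (L * (2 * X) / N) ≤ 2 * (η ^ 2 / 100) * (4 * l + T * l + 1) + 1 := by
    apply lam_le _ L L T _ l N hκ0 hn hl _ h2LL
    · have := hprod 1 1 L (by norm_num) h32 (by norm_num) h8 (by positivity) hL2
      simpa using this
    · linarith
  have hlogL1 : Real.log (((L : ℝ) + 1) ^ 2) ≤ 2 * l := by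
    rw [Real.log_pow]
    have := Real.log_le_log (by positivity) (by linarith : (L : ℝ) + 1 ≤ N)
    push_cast
    linarith
  have hlogL2 : Real.log (2 * (L : ℝ) + 1) ≤ l := Real.log_le_log (by positivity) h2L1
  refine ⟨Q, T, t, L, η ^ 2 / 100, hκ0, ?_, ht, ?_, ?_, ?_, ?_, ?_, ?_, ?_, ?_, ?_, ?_, ?_⟩
  · clear * - hη0 hη1'; nlinarith
  · have : (t : ℝ) ≤ T := by
      refine ht1.trans ?_
      have : η * (T : ℝ) ≤ 1 * T := mul_le_mul_of_nonneg_right hη1' (by positivity)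
      linarith
    exact_mod_cast this
  · exact_mod_cast hLpos
  · have : (n₀ : ℝ) ≤ Q := by linarith
    exact_mod_cast this
  · exact_mod_cast hQpos
  · have h1 : (10 * T / η * S) ^ 2 ≤ ((L : ℝ) + 1) ^ 2 := pow_le_pow_left₀ (by positivity) (by linarith) 2
    calc (N : ℝ) * T ^ 2 = η ^ 2 / 100 * (10 * T / η * S) ^ 2 := by
          rw [hN]
          field_simp
          ring
      _ ≤ η ^ 2 / 100 * ((L : ℝ) + 1) ^ 2 := mul_le_mul_of_nonneg_left h1 hκ0.le
  · intro i hi1 hi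
    have h1 := hprod 1 i L (by norm_num) h32 (by positivity) (hi2 i hi) (by positivity) hL2
    rw [one_mul] at h1
    have h2 := ineq1 η _ T t l hη0 hη1 rfl hT ht1 (by positivity) hlog1
    have h3 : (t : ℝ) * Real.log (2 * (L : ℝ) + 1) ≤ t * l := mul_le_mul_of_nonneg_left hlogL2 (by positivity)
    have h4 : ((T : ℝ) - t) * (η * l) ≤ ((T : ℝ) - t) * Real.log i := by
      apply mul_le_mul_of_nonneg_left (hilog i hi1)
      have : η * (T : ℝ) ≤ 1 * T := mul_le_mul_of_nonneg_right hη1' (by positivity)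
      linarith
    linarith
  · intro i hi1 hi p hp1 hp
    have h1 := hprod p i L (by positivity) (hp2 p hp) (by positivity) (hi2 i hi) (by positivity) hL2
    have h2 := ineq2 η _ T t l hη0 hη1 rfl hT ht2 hlog1
    have h4 : ((t : ℝ) - 1) * (3 * η * l) ≤ ((t : ℝ) - 1) * Real.log p := by
      apply mul_le_mul_of_nonneg_left (hplog p hp1)
      have : (2 : ℝ) ≤ t := by exact_mod_cast ht
      linarith
    linarith
  · intro j hj
    have h1 : (Q : ℝ) ^ 3 ≤ ((j : ℝ) + (Nat.log 2 N : ℕ)) ^ 2 := by exact_mod_cast hj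
    have h2 : (V ^ 3) ^ 2 ≤ ((j : ℝ) + (Nat.log 2 N : ℕ)) ^ 2 := by
      calc (V ^ 3) ^ 2 = V ^ 6 := by ring
        _ ≤ _ := hQ31.trans h1
    have h3 : V ^ 3 ≤ (j : ℝ) + (Nat.log 2 N : ℕ) :=
      (pow_le_pow_iff_left₀ (by positivity) (by positivity) (by norm_num)).1 h2
    have h4 : ((Nat.log 2 N : ℕ) : ℝ) * Real.log 2 ≤ l := by
      have hN0 : N ≠ 0 := by
        intro h0
        rw [h0] at hn
        simp at hn
      have h5 : ((2 : ℝ) ^ (Nat.log 2 N)) ≤ N := by exact_mod_cast Nat.pow_log_le_self 2 hN0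
      have h6 := Real.log_le_log (by positivity) h5
      rwa [Real.log_pow] at h6
    have h5 : ((Nat.log 2 N : ℕ) : ℝ) ≤ V / 3 := by
      have h6 : ((Nat.log 2 N : ℕ) : ℝ) * 0.69 ≤ ((Nat.log 2 N : ℕ) : ℝ) * Real.log 2 := by
        apply mul_le_mul_of_nonneg_left _ (by positivity)
        linarith [Real.log_two_gt_d9]
      linarith
    have h6 : V ^ 3 / 2 ≤ (j : ℝ) := by
      have : V ≤ V ^ 3 := by
        calc V = V ^ 1 := (pow_one V).symm
          _ ≤ V ^ 3 := pow_le_pow_right₀ hV1 (by norm_num)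
      linarith
    refine ⟨?_, ?_⟩
    · have : (0 : ℝ) < j := lt_of_lt_of_le (by positivity) h6
      have : 0 < j := by exact_mod_cast this
      exact this
    · intro i hi
      have h7 := hi2 i hi
      have h8 : (L : ℝ) ^ 2 ≤ 400 * W * S ^ 2 := by
        calc (L : ℝ) ^ 2 ≤ (20 * T / η * S) ^ 2 := pow_le_pow_left₀ (by positivity) hL2 2
          _ = 400 * ((T : ℝ) ^ 2 / η ^ 2) * S ^ 2 := by
              field_simp
              ring
          _ ≤ 400 * W * S ^ 2 := by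
              apply mul_le_mul_of_nonneg_right _ (by positivity)
              linarith
      have h9 : 2 * (i : ℝ) * L ^ 2 < N * j := by
        calc 2 * (i : ℝ) * L ^ 2 ≤ 2 * (8 * V ^ 2) * (400 * W * S ^ 2) := by
              apply mul_le_mul _ h8 (by positivity) (by positivity)
              linarith
          _ = (6400 * W) * (V ^ 2 * S ^ 2) := by ring
          _ < (V / 2) * (V ^ 2 * S ^ 2) := by
              apply mul_lt_mul_of_pos_right _ (by positivity)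
              linarith
          _ = S ^ 2 * (V ^ 3 / 2) := by ring
          _ ≤ N * j := by
              rw [hN]
              exact mul_le_mul_of_nonneg_left h6 (by positivity)
      exact_mod_cast h9
  · intro m hm
    have h1 : (Q : ℝ) ≤ (m : ℝ) ^ 2 := by exact_mod_cast hm
    have h2 : V ≤ (m : ℝ) :=
      (pow_le_pow_iff_left₀ hV0.le (by positivity) (by norm_num : (2 : ℕ) ≠ 0)).1 (hQ1.trans h1)
    have h3 : 4 * (L : ℝ) ^ 3 < (N : ℝ) ^ 3 := by
      have h4 : (2 * (L : ℝ)) ^ 3 ≤ (N : ℝ) ^ 3 := pow_le_pow_left₀ (by positivity) (by linarith) 3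
      have h5 : (2 * (L : ℝ)) ^ 3 = 8 * (L : ℝ) ^ 3 := by ring
      have h6 : 0 < (L : ℝ) ^ 3 := by positivity
      linarith
    have h4 : (N : ℝ) ^ 3 ≤ (2 : ℝ) ^ m := by
      have h5 : Real.log ((N : ℝ) ^ 3) ≤ Real.log ((2 : ℝ) ^ m) := by
        rw [Real.log_pow, Real.log_pow]
        push_cast
        have h6 : (m : ℝ) * 0.69 ≤ m * Real.log 2 := by
          apply mul_le_mul_of_nonneg_left _ (by positivity)
          linarith [Real.log_two_gt_d9]
        linarith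
      exact (Real.log_le_log_iff (by positivity) (by positivity)).1 h5
    have h5 := h3.trans_le h4
    exact_mod_cast h5
  · intro p hp
    have h1 := hp2 p hp
    have hX' : X ≤ S / V ^ 16 := by
      rw [le_div_iff₀ (by positivity)]
      exact hX
    have h2 : 2 * (L : ℝ) * p * X / N ≤ 1280 * (T / η) / V ^ 10 := by
      rw [hN, div_le_iff₀ (by positivity)]
      calc 2 * (L : ℝ) * p * X ≤ 2 * (20 * T / η * S) * (32 * V ^ 6) * (S / V ^ 16) := by
            apply mul_le_mul _ hX' hX0 (by positivity)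
            apply mul_le_mul _ h1 (by positivity) (by positivity)
            linarith
        _ = 1280 * (T / η) / V ^ 10 * S ^ 2 := by
            field_simp
            ring
    have h3 : 0 < Real.log (2 * ((L : ℝ) + L)) := Real.log_pos (by linarith)
    have h4 : Real.log (2 * ((L : ℝ) + L)) ≤ V := by
      have h5 : Real.log (2 * ((L : ℝ) + L)) ≤ Real.log ((N : ℝ) ^ 2) := by
        apply Real.log_le_log (by linarith)
        clear * - h2L1 hLpos hN3; nlinarith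
      rw [Real.log_pow] at h5
      push_cast at h5
      linarith
    have h5 : c / V ^ 3 ≤ c / Real.log (2 * ((L : ℝ) + L)) ^ 3 := by
      apply div_le_div_of_nonneg_left hc.le (by positivity)
      exact pow_le_pow_left₀ h3.le h4 3
    have h6 : 1280 * ((T : ℝ) / η) / V ^ 10 < c / V ^ 3 := by
      rw [div_lt_div_iff₀ (by positivity) (by positivity)]
      have h7 : 2000 * ((T : ℝ) / η) / c < V := by linarith
      rw [div_lt_iff₀ hc] at h7
      have h8 : V ≤ V ^ 7 := by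
        calc V = V ^ 1 := (pow_one V).symm
          _ ≤ V ^ 7 := pow_le_pow_right₀ hV1 (by norm_num)
      have h9 : 1280 * ((T : ℝ) / η) < c * V ^ 7 := by
        have h10 : c * V ≤ c * V ^ 7 := mul_le_mul_of_nonneg_left h8 hc.le
        have h11 : 0 < (T : ℝ) / η := by positivity
        linarith
      calc 1280 * ((T : ℝ) / η) * V ^ 3 < c * V ^ 7 * V ^ 3 := mul_lt_mul_of_pos_right h9 (by positivity)
        _ = c * V ^ 10 := by ring
    linarith
  · intro a b ha hb hQa hQb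
    have haR : (1 : ℝ) ≤ a := by exact_mod_cast ha
    have hbR : (1 : ℝ) ≤ b := by exact_mod_cast hb
    -- facts for one of the two numbers
    have key : ∀ a : ℕ, 1 ≤ a → (Q + 1) * a ≤ L → ∃ A : ℕ, 200 * (T : ℝ) / η ^ 2 * a ≤ A ∧
        (A : ℝ) ≤ 300 * T / η ^ 2 * a ∧ (A : ℝ) ≤ 20 * T / η * S ∧ V ^ 2 * a ≤ 20 * T / η * S := by
      intro a ha hQa
      have haR : (1 : ℝ) ≤ a := by exact_mod_cast ha
      have h1 : V ^ 2 * a ≤ 20 * T / η * S := by
        have h2 : ((Q : ℝ) + 1) * a ≤ L := by exact_mod_cast hQa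
        have h3 : V ^ 2 * a ≤ ((Q : ℝ) + 1) * a := mul_le_mul_of_nonneg_right (by linarith) (by linarith)
        linarith
      have hTη2 : 1 ≤ (T : ℝ) / η ^ 2 := by
        rw [le_div_iff₀ (by positivity)]
        clear * - hTη hη0 hη1' hT1; nlinarith
      have hx2 : 2 ≤ 200 * (T : ℝ) / η ^ 2 * a := by
        have e : 200 * (T : ℝ) / η ^ 2 * a = 200 * (T / η ^ 2 * a) := by ring
        rw [e]
        clear * - hTη2 haR; nlinarith
      have hA1 : 200 * (T : ℝ) / η ^ 2 * a ≤ (⌈200 * (T : ℝ) / η ^ 2 * a⌉₊ : ℝ) := Nat.le_ceil _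
      have hA2 : (⌈200 * (T : ℝ) / η ^ 2 * a⌉₊ : ℝ) ≤ 300 * T / η ^ 2 * a := by
        have := Nat.ceil_lt_add_one (by positivity : (0 : ℝ) ≤ 200 * (T : ℝ) / η ^ 2 * a)
        have e : 300 * (T : ℝ) / η ^ 2 * a = 200 * (T : ℝ) / η ^ 2 * a + 200 * (T : ℝ) / η ^ 2 * a / 2 := by ring
        rw [e]
        linarith
      refine ⟨⌈200 * (T : ℝ) / η ^ 2 * a⌉₊, hA1, hA2, hA2.trans ?_, h1⟩
      refine le_trans ?_ h1
      apply mul_le_mul_of_nonneg_right _ (by linarith)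
      have e : 300 * (T : ℝ) / η ^ 2 = 300 * (T / η ^ 2) := by ring
      rw [e]
      linarith
    obtain ⟨A, hA1, hA2, hA3, haV⟩ := key a ha hQa
    obtain ⟨B, hB1, hB2, hB3, hbV⟩ := key b hb hQb
    have hA20 : (A : ℝ) ≤ 20 * W * S := by
      refine hA3.trans ?_
      apply mul_le_mul_of_nonneg_right _ hS0.le
      have e : 20 * (T : ℝ) / η = 20 * (T / η) := by ring
      rw [e]
      linarith
    have hB20 : (B : ℝ) ≤ 20 * W * S := by
      refine hB3.trans ?_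
      apply mul_le_mul_of_nonneg_right _ hS0.le
      have e : 20 * (T : ℝ) / η = 20 * (T / η) := by ring
      rw [e]
      linarith
    have hWS : 1 ≤ W * S := by clear * - hW1 hS1; nlinarith
    have hWSN : 100 * (W * S) ≤ N := by
      rw [hN]
      have h1 : 100 * W * S ≤ S * S := by
        apply mul_le_mul_of_nonneg_right _ hS0.le
        linarith
      clear * - h1; nlinarith
    have hAB1 : (A : ℝ) + B + 1 ≤ N := by linarith
    have hA1N : (A : ℝ) + 1 ≤ N / 2 := by linarith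
    have hB1N : (B : ℝ) + 1 ≤ N / 2 := by linarith
    have hAB2 : ((A : ℝ) + 1) * (B + 1) ≤ (N : ℝ) ^ 2 / 4 := by
      calc ((A : ℝ) + 1) * (B + 1) ≤ (N / 2) * (N / 2) := mul_le_mul hA1N hB1N (by positivity) (by positivity)
        _ = (N : ℝ) ^ 2 / 4 := by ring
    refine ⟨A, B, ?_, ?_, ?_, ?_⟩
    · have h1 : (T : ℝ) * a ≤ η ^ 2 / 100 * (A + 1) / 2 := by
        have e : (T : ℝ) * a = η ^ 2 / 100 * (200 * (T : ℝ) / η ^ 2 * a) / 2 := by
          field_simp
          ring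
        rw [e]
        have : η ^ 2 / 100 * (200 * (T : ℝ) / η ^ 2 * a) ≤ η ^ 2 / 100 * (A + 1) :=
          mul_le_mul_of_nonneg_left (by linarith) hκ0.le
        linarith
      have h2 : (T : ℝ) * b ≤ η ^ 2 / 100 * (B + 1) / 2 := by
        have e : (T : ℝ) * b = η ^ 2 / 100 * (200 * (T : ℝ) / η ^ 2 * b) / 2 := by
          field_simp
          ring
        rw [e]
        have : η ^ 2 / 100 * (200 * (T : ℝ) / η ^ 2 * b) ≤ η ^ 2 / 100 * (B + 1) :=
          mul_le_mul_of_nonneg_left (by linarith) hκ0.le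
        linarith
      have h3 := mul_le_mul_of_nonneg_right h1 (by positivity : (0 : ℝ) ≤ (B : ℝ) + 1)
      have h4 := mul_le_mul_of_nonneg_right h2 (by positivity : (0 : ℝ) ≤ (A : ℝ) + 1)
      calc (T : ℝ) * a * (B + 1) + T * b * (A + 1)
          ≤ η ^ 2 / 100 * (A + 1) / 2 * (B + 1) + η ^ 2 / 100 * (B + 1) / 2 * (A + 1) := add_le_add h3 h4
        _ = η ^ 2 / 100 * (((A : ℝ) + 1) * (B + 1)) := by ring
    · intro i hi1 hi p hp1 hp
      have hL' : ((A : ℝ) + B) / 2 ≤ 20 * T / η * S := by linarith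
      have h1 : ((i : ℝ) * ((A + B) * (p * X))) / N ≤ 1 := by
        have := hprod p i (((A : ℝ) + B) / 2) (by positivity) (hp2 p hp) (by positivity) (hi2 i hi)
          (by positivity) hL'
        refine le_trans (le_of_eq ?_) this
        ring
      have h2 : (((A : ℝ) + B) * (p * X)) / N ≤ 1 := by
        have := hprod p 1 (((A : ℝ) + B) / 2) (by positivity) (hp2 p hp) (by norm_num) h8
          (by positivity) hL'
        refine le_trans (le_of_eq ?_) this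
        ring
      have h3 := lam_le (η ^ 2 / 100) A B T (((A : ℝ) + B) * (p * X) / N) l N hκ0 hn hl hAB1
        (by linarith [sq_nonneg (N : ℝ)]) h2
      have h4 : Real.log (((A : ℝ) + 1) * (B + 1)) ≤ 2 * l := by
        have := Real.log_le_log (by positivity) (by linarith [sq_nonneg (N : ℝ)] : ((A : ℝ) + 1) * (B + 1) ≤ (N : ℝ) ^ 2)
        rw [Real.log_pow] at this
        push_cast at this
        linarith
      have h5 : Real.log ((A : ℝ) + B + 1) ≤ l := Real.log_le_log (by positivity) hAB1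
      have h6 := ineq3 η _ T l hη0 hη1 rfl hT hlog1
      have h7 : ((T : ℝ) - 1) * (η * l) ≤ ((T : ℝ) - 1) * Real.log i :=
        mul_le_mul_of_nonneg_left (hilog i hi1) (by linarith)
      linarith
    · intro i hi
      have h1 := hi2 i hi
      have h2 : (a : ℝ) * B + b * A ≤ 600 * T / η ^ 2 * (a * b) := by
        have h3 := mul_le_mul_of_nonneg_left hB2 (by positivity : (0 : ℝ) ≤ a)
        have h4 := mul_le_mul_of_nonneg_left hA2 (by positivity : (0 : ℝ) ≤ b)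
        have e : 600 * (T : ℝ) / η ^ 2 * (a * b) = a * (300 * T / η ^ 2 * b) + b * (300 * T / η ^ 2 * a) := by ring
        rw [e]
        linarith
      have h3 : (V ^ 2 * a) * (V ^ 2 * b) ≤ (20 * T / η * S) * (20 * T / η * S) :=
        mul_le_mul haV hbV (by positivity) (by positivity)
      have h4 : (i : ℝ) * (a * B + b * A) * V ^ 2 < N * V ^ 2 := by
        calc (i : ℝ) * (a * B + b * A) * V ^ 2 ≤ (8 * V ^ 2) * (600 * T / η ^ 2 * (a * b)) * V ^ 2 := by
              apply mul_le_mul_of_nonneg_right _ (by positivity)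
              exact mul_le_mul h1 h2 (by positivity) (by positivity)
          _ = 4800 * T / η ^ 2 * ((V ^ 2 * a) * (V ^ 2 * b)) := by ring
          _ ≤ 4800 * T / η ^ 2 * ((20 * T / η * S) * (20 * T / η * S)) :=
              mul_le_mul_of_nonneg_left h3 (by positivity)
          _ = 1920000 * W * S ^ 2 := by
              rw [hW]
              field_simp
              ring
          _ < V * S ^ 2 := by
              apply mul_lt_mul_of_pos_right _ (by positivity)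
              linarith
          _ ≤ V ^ 2 * S ^ 2 := mul_le_mul_of_nonneg_right hVV2 (by positivity)
          _ = N * V ^ 2 := by
              rw [hN]
              ring
      have h5 : (i : ℝ) * (a * B + b * A) < N := lt_of_mul_lt_mul_right h4 (by positivity)
      exact_mod_cast h5
    · intro i hi h
      have h1 : (i : ℝ) * a ≤ A := by exact_mod_cast h
      have h2 : (i : ℝ) * a ≤ 300 * T / η ^ 2 * a := h1.trans hA2
      have h3 : (i : ℝ) ≤ 300 * T / η ^ 2 := le_of_mul_le_mul_right h2 (by linarith)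
      have h4 : (Q : ℝ) < i := by exact_mod_cast hi
      have e : 300 * (T : ℝ) / η ^ 2 = 300 * (T / η ^ 2) := by ring
      rw [e] at h3
      linarith

theorem t_PAR : S_PAR := by
  intro ε c n₀ hε hε2 hc
  set η := ε / 8 with hη
  have hη0 : 0 < η := by positivity
  have hη1 : η ≤ 1 / 16 := by linarith
  set T := ⌈20 / η ^ 2⌉₊ with hT
  set t := ⌊η * T / 8⌋₊ with ht
  have hT1 : 20 ≤ η ^ 2 * T := by
    have h := Nat.le_ceil (20 / η ^ 2)
    rw [div_le_iff₀ (by positivity)] at h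
    linarith
  have hηT : 320 ≤ η * T := by
    have h1 : η ^ 2 * T = η * (η * T) := by ring
    rw [h1] at hT1
    have h2 : 0 ≤ η * (T : ℝ) := by positivity
    nlinarith
  have ht1 : (t : ℝ) ≤ η * T / 8 := Nat.floor_le (by positivity)
  have ht2 : η * T / 8 < t + 1 := Nat.lt_floor_add_one _
  have ht3 : 2 ≤ t := by
    have : (2 : ℝ) ≤ t := by linarith
    exact_mod_cast this
  set K := 10 ^ 7 * ((T : ℝ) ^ 3 / η ^ 4) + 2000 * (T / η) / c + n₀ + 10 with hK
  have hη2 : 0 < η / 2 := by positivity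
  have e1 : ∀ᶠ n : ℝ in Filter.atTop, K ≤ n ^ (η / 2) := (tendsto_rpow_atTop hη2).eventually_ge_atTop K
  have e2 : ∀ᶠ n : ℝ in Filter.atTop, 1 ≤ Real.log n := Real.tendsto_log_atTop.eventually_ge_atTop 1
  have e3 : ∀ᶠ n : ℝ in Filter.atTop, ‖Real.log n‖ ≤ 1 / 5 * ‖n ^ (η / 2)‖ :=
    (isLittleO_log_rpow_atTop hη2).def (by norm_num : (0 : ℝ) < 1 / 5)
  have e4 : ∀ᶠ n : ℝ in Filter.atTop, 1 ≤ n := Filter.eventually_ge_atTop 1
  have e5 := (e1.and (e2.and (e3.and e4)))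
  obtain ⟨N₀, hN₀⟩ := Filter.eventually_atTop.1 (tendsto_natCast_atTop_atTop.eventually e5)
  refine ⟨N₀, fun N hN X hX0 hX => ?_⟩
  obtain ⟨f1, f2, f3, f4⟩ := hN₀ N hN
  have hN0 : (0 : ℝ) < N := by linarith
  have hSS : (N : ℝ) = ((N : ℝ) ^ (1 / 2 : ℝ)) ^ 2 := by
    rw [← Real.rpow_natCast, ← Real.rpow_mul hN0.le]
    norm_num
  refine core η c n₀ T t N ((N : ℝ) ^ (1 / 2 : ℝ)) ((N : ℝ) ^ (η / 2)) X hη0 hη1 hc hT1 ht1 ht2 ht3 hSS
    ?_ f2 ?_ f1 ?_ hX0 ?_
  · exact Real.rpow_le_rpow_of_exponent_le f4 (by linarith)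
  · rw [Real.norm_of_nonneg (by linarith), Real.norm_of_nonneg (by positivity)] at f3
    linarith
  · rw [Real.log_rpow hN0]
    ring
  · have h1 : ((N : ℝ) ^ (η / 2)) ^ 16 = (N : ℝ) ^ ε := by
      rw [← Real.rpow_natCast, ← Real.rpow_mul hN0.le]
      congr 1
      rw [hη]
      push_cast
      ring
    rw [h1]
    calc X * (N : ℝ) ^ ε ≤ (N : ℝ) ^ (1 / 2 - ε) * (N : ℝ) ^ ε :=
          mul_le_mul_of_nonneg_right hX (by positivity)
      _ = (N : ℝ) ^ (1 / 2 : ℝ) := by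
          rw [← Real.rpow_add hN0]
          congr 1
          ring

end Pool.Agent.N106.RT
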